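import Pool.Agent.H85.KS2.Targets
import Pool.Agent.H86.CV.DV

/-! Rows NUM, DB, MVK, ZBK of ks2_modules. -/

set_option autoImplicit false

open Pool.Agent.H98.KS Pool.Agent.H85.KS2

namespace Pool.Agent.H85.KS2

theorem ks2_DB : T_DB := by
  intro ε hε
  obtain ⟨C, hC, h⟩ := Pool.Agent.H86.CV.dv_tau 1 ε hε
  refine ⟨C, by linarith, fun n hn => ?_⟩
  have := h n hn
  rwa [pow_one] at this

theorem two_pow_ge (k : ℕ) (hk : 3 ≤ k) : k ^ 2 ≤ 2 ^ k + 5 ∧ 4 * k ≤ 2 ^ k + 5 ∧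
    6 * (k - 1) ≤ 2 ^ k + 5 ∧ 4 * 2 ^ (k - 2) = 2 ^ k := by
  have h4 : 4 * 2 ^ (k - 2) = 2 ^ k := by
    obtain ⟨m, rfl⟩ : ∃ m, k = m + 2 := ⟨k - 2, by omega⟩
    rw [Nat.add_sub_cancel, pow_add]
    ring
  refine ⟨?_, ?_, ?_, h4⟩
  · have h : ∀ m : ℕ, (m + 6) ^ 2 ≤ 2 ^ (m + 6) := by
      intro m
      induction m with
      | zero => norm_num
      | succ m ih =>
        have : (m + 1 + 6) ^ 2 ≤ 2 * (m + 6) ^ 2 :=
          Nat.le.intro (k := m ^ 2 + 10 * m + 23) (by ring)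
        calc (m + 1 + 6) ^ 2 ≤ 2 * (m + 6) ^ 2 := this
          _ ≤ 2 * 2 ^ (m + 6) := by omega
          _ = 2 ^ (m + 1 + 6) := by ring
    rcases Nat.lt_or_ge k 6 with h6 | h6
    · interval_cases k <;> norm_num
    · obtain ⟨m, rfl⟩ : ∃ m, k = m + 6 := ⟨k - 6, by omega⟩
      exact (h m).trans (Nat.le_add_right _ _)
  · have h : ∀ m : ℕ, 4 * (m + 4) ≤ 2 ^ (m + 4) := by
      intro m
      induction m with
      | zero => norm_num
      | succ m ih =>
        have e : 2 ^ (m + 1 + 4) = 2 * 2 ^ (m + 4) := by ring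
        omega
    rcases Nat.lt_or_ge k 4 with h6 | h6
    · interval_cases k; norm_num
    · obtain ⟨m, rfl⟩ : ∃ m, k = m + 4 := ⟨k - 4, by omega⟩
      exact (h m).trans (Nat.le_add_right _ _)
  · have h : ∀ m : ℕ, 6 * (m + 5) ≤ 2 ^ (m + 5) := by
      intro m
      induction m with
      | zero => norm_num
      | succ m ih =>
        have e : 2 ^ (m + 1 + 5) = 2 * 2 ^ (m + 5) := by ring
        omega
    rcases Nat.lt_or_ge k 5 with h6 | h6
    · interval_cases k <;> norm_num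
    · obtain ⟨m, rfl⟩ : ∃ m, k = m + 5 := ⟨k - 5, by omega⟩
      have := h m
      omega

theorem ks2_NUM : T_NUM := by
  intro k d hk hd
  obtain ⟨t1, t2, t3, t4⟩ := two_pow_ge k hk
  have hdiv : 2 * (k * (k - 1) / 2) = k * (k - 1) := by
    have h1 : 2 ∣ k * (k - 1) := by
      have := Nat.even_mul_pred_self k
      exact this.two_dvd
    exact Nat.mul_div_cancel' h1
  obtain ⟨m, rfl⟩ : ∃ m, k = m + 3 := ⟨k - 3, by omega⟩
  have hm : m + 3 - 1 = m + 2 := by omega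
  rw [hm] at hdiv
  set q := (m + 3) * (m + 2) / 2 with hq
  have hq2 : 4 * q = 2 * ((m + 3) * (m + 2)) := by omega
  -- lower bounds for 4 ss + 5
  have key : ∀ B : ℕ, B ≤ 2 ^ (m + 3) + 5 → B ≤ 2 * ((m + 3) * (m + 2)) + 5 → B ≤ d := by
    intro B h1 h2
    refine le_trans ?_ hd
    unfold ss
    rw [hm, ← hq]
    rcases le_total (2 ^ (m + 3 - 2)) q with h | h
    · rw [min_eq_left h, t4]
      exact h1
    · rw [min_eq_right h, hq2]
      exact h2
  have h4k : 4 * (m + 3) ≤ d := key _ t2 (by nlinarith)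
  have h6k : 6 * (m + 3 - 1) ≤ d := key _ t3 (by rw [hm]; nlinarith)
  have hk2 : (m + 3) ^ 2 ≤ d := key _ t1 (by nlinarith)
  have hss1 : 1 ≤ ss (m + 3) := by
    unfold ss
    rw [hm, ← hq]
    refine le_min (Nat.one_le_two_pow) ?_
    nlinarith
  have hss2 : m + 3 ≤ 2 * ss (m + 3) + 2 := by
    unfold ss
    rw [hm, ← hq]
    rcases le_total (2 ^ (m + 3 - 2)) q with h | h
    · rw [min_eq_left h]
      have h5 : m + 1 < 2 ^ (m + 1) := Nat.lt_two_pow_self
      have h6 : m + 3 - 2 = m + 1 := by omega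
      rw [h6]
      omega
    · rw [min_eq_right h]
      nlinarith
  refine ⟨by omega, hss1, hss2, h4k, h6k, hk2, by omega, by omega, by omega, ?_⟩
  -- d + 1 ≤ 2 k ((d - 1) / 4)
  have h13 : 13 ≤ d := by
    refine key 13 ?_ ?_
    · have : 2 ^ 3 ≤ 2 ^ (m + 3) := Nat.pow_le_pow_right (by norm_num) (by omega)
      omega
    · nlinarith
  set v := (d - 1) / 4 with hv
  have hv3 : 3 ≤ v := by omega
  have hv4 : d ≤ 4 * v + 4 := by omega
  rcases Nat.eq_zero_or_pos m with h0 | h0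
  · subst h0
    omega
  · nlinarith

theorem ks2_MVK (hHUA : T_HUA) (hVIN : T_VIN) : T_MVK := by
  intro k hk
  unfold ss
  rcases Nat.lt_or_ge k 4 with h | h
  · have h3 : k = 3 := by omega
    subst h3
    exact hHUA 3 le_rfl
  · rcases le_total (2 ^ (k - 2)) (k * (k - 1) / 2) with h1 | h1
    · rw [min_eq_left h1]
      exact hHUA k hk
    · rw [min_eq_right h1]
      exact hVIN k h

theorem ks2_ZBK (hNUM : T_NUM) (hMVK : T_MVK) (hZZ : T_ZZ) (hZU : T_ZU) : T_ZBK := by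
  intro k v hk hv
  have h1 := (hNUM k (4 * ss k + 5) hk le_rfl).2.1
  exact hZU k (ss k + 1) v (by omega) hv (hZZ k (ss k) hk h1 (hMVK k hk))

end Pool.Agent.H85.KS2
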