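import Pool.Agent.H85.KS2.Targets

/-! Row RN of ks2_modules. -/

set_option autoImplicit false

open Pool.Agent.H98.KS Pool.Agent.H85.KS2

noncomputable section

namespace Pool.Agent.H85.KS2

/-- the linear inequality -/
theorem rn_lin (k d v M w A B E η ε : ℝ) (hk : 3 ≤ k) (hv : 0 < v) (hkv : k ≤ 2 * v)
    (hd : 4 * v + 1 ≤ d) (hd2 : d + 1 ≤ 2 * k * v) (hM : 1 ≤ M) (hη : η = 1 / (8 * v))
    (hε : ε = 1 / (8 * v * M)) (hA : 0 ≤ A) (hAB : (1 + 1 / (2 * k)) * A ≤ B) (hBM : B ≤ M * A)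
    (hw0 : 0 ≤ w) (hw : w ≤ d)
    (hE : E = if 4 * v ≤ w then d * (B - A) else if w * B ≤ d * (B - A) then w * B
      else d * (B - A)) :
    (1 - 1 / v) * E + B * (d + w / v - 2 * k * min 1 (w / (4 * v)) + ε) ≤
      2 * (d - k) * (B - A) + (d - η) * A := by
  have hM0 : 0 < M := by linarith
  have hk0 : 0 < k := by linarith
  have hBA : A / (2 * k) ≤ B - A := by
    have : (1 + 1 / (2 * k)) * A = A + A / (2 * k) := by ring
    linarith
  have hBA0 : 0 ≤ B - A := le_trans (by positivity) hBA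
  have hB0 : 0 ≤ B := by linarith
  have hεB : ε * B ≤ A / (8 * v) := by
    calc ε * B ≤ ε * (M * A) := mul_le_mul_of_nonneg_left hBM (by rw [hε]; positivity)
      _ = A / (8 * v) := by
        rw [hε]
        field_simp
  have hηA : η * A = A / (8 * v) := by
    rw [hη]
    ring
  have hvi : 0 < 1 / v := by positivity
  split_ifs at hE with h1 h2
  · -- w ≥ 4 v
    have hm : min 1 (w / (4 * v)) = 1 := by
      apply min_eq_left
      rw [le_div_iff₀ (by positivity)]
      linarith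
    rw [hm, hE]
    have h3 : w / v ≤ d / v := by gcongr
    have h4 : B * (w / v) ≤ B * (d / v) := mul_le_mul_of_nonneg_left h3 hB0
    have h5 : A * (d / v - 2 * k) ≤ -(A / v) := by
      have h6 : d / v - 2 * k ≤ -(1 / v) := by
        rw [div_sub' hv.ne', neg_div', div_le_div_iff_of_pos_right hv]
        linarith
      have := mul_le_mul_of_nonneg_left h6 hA
      calc A * (d / v - 2 * k) ≤ A * -(1 / v) := this
        _ = -(A / v) := by ring
    have h7 : A / (8 * v) = A / v / 8 := by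
      field_simp
    have h8 : 0 ≤ A / v := by positivity
    have e1 : (1 - 1 / v) * (d * (B - A)) + B * (d + d / v - 2 * k * 1 + ε) =
        2 * (d - k) * (B - A) + d * A + A * (d / v - 2 * k) + ε * B := by
      ring
    have e2 : (1 - 1 / v) * (d * (B - A)) + B * (d + w / v - 2 * k * 1 + ε) ≤
        (1 - 1 / v) * (d * (B - A)) + B * (d + d / v - 2 * k * 1 + ε) := by
      nlinarith
    have e3 : (d - η) * A = d * A - η * A := by ring
    rw [e3, hηA]
    rw [h7] at hεB ⊢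
    linarith
  · -- w < 4 v, first case
    rw [not_le] at h1
    have hm : min 1 (w / (4 * v)) = w / (4 * v) := by
      apply min_eq_right
      rw [div_le_one (by positivity)]
      linarith
    have hc : 0 ≤ 1 - k / (2 * v) := by
      rw [sub_nonneg, div_le_one (by positivity)]
      exact hkv
    have h3 : w * B * (1 - k / (2 * v)) ≤ d * (B - A) * (1 - k / (2 * v)) :=
      mul_le_mul_of_nonneg_right h2 hc
    have h4 : A / (4 * v) ≤ (B - A) * (k / (2 * v)) * (d - 4 * v) := by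
      calc A / (4 * v) = A / (2 * k) * (k / (2 * v)) * 1 := by
            field_simp
            ring
        _ ≤ (B - A) * (k / (2 * v)) * (d - 4 * v) := by
            apply mul_le_mul _ (by linarith) (by norm_num) (by positivity)
            exact mul_le_mul_of_nonneg_right hBA (by positivity)
    have e1 : (1 - 1 / v) * (w * B) + B * (d + w / v - 2 * k * (w / (4 * v)) + ε) =
        d * B + w * B * (1 - k / (2 * v)) + ε * B := by
      field_simp
      ring
    have e2 : d * B + d * (B - A) * (1 - k / (2 * v)) =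
        2 * (d - k) * (B - A) + d * A - (B - A) * (k / (2 * v)) * (d - 4 * v) := by
      field_simp
      ring
    have e3 : (d - η) * A = d * A - η * A := by ring
    have e4 : A / (4 * v) = A / (8 * v) + A / (8 * v) := by
      field_simp
      ring
    rw [hm, hE, e1, e3, hηA]
    linarith
  · rw [not_le] at h1 h2
    have hm : min 1 (w / (4 * v)) = w / (4 * v) := by
      apply min_eq_right
      rw [div_le_one (by positivity)]
      linarith
    have hc : (1 / v) * (1 - k / 2) ≤ 0 := by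
      apply mul_nonpos_of_nonneg_of_nonpos hvi.le
      linarith
    have h3 : w * B * ((1 / v) * (1 - k / 2)) ≤ d * (B - A) * ((1 / v) * (1 - k / 2)) :=
      mul_le_mul_of_nonpos_right h2.le hc
    have h4 : A / (4 * v) ≤ (B - A) * (k / (2 * v)) * (d - 4 * v) := by
      calc A / (4 * v) = A / (2 * k) * (k / (2 * v)) * 1 := by
            field_simp
            ring
        _ ≤ (B - A) * (k / (2 * v)) * (d - 4 * v) := by
            apply mul_le_mul _ (by linarith) (by norm_num) (by positivity)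
            exact mul_le_mul_of_nonneg_right hBA (by positivity)
    have e1 : (1 - 1 / v) * (d * (B - A)) + B * (d + w / v - 2 * k * (w / (4 * v)) + ε) =
        (1 - 1 / v) * (d * (B - A)) + d * B + w * B * ((1 / v) * (1 - k / 2)) + ε * B := by
      field_simp
      ring
    have e2 : (1 - 1 / v) * (d * (B - A)) + d * B + d * (B - A) * ((1 / v) * (1 - k / 2)) =
        2 * (d - k) * (B - A) + d * A - (B - A) * (k / (2 * v)) * (d - 4 * v) := by
      field_simp
      ring
    have e3 : (d - η) * A = d * A - η * A := by ring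
    have e4 : A / (4 * v) = A / (8 * v) + A / (8 * v) := by
      field_simp
      ring
    rw [hm, hE, e1, e3, hηA]
    linarith

theorem ks2_RN : T_RN := by
  intro k d v M hk hkv hd hd2 hM
  have hv0 : 0 < v := by omega
  have hvR : (1 : ℝ) ≤ v := by exact_mod_cast hv0
  have hvR0 : (0 : ℝ) < v := by linarith
  have hMR : (1 : ℝ) ≤ M := by exact_mod_cast hM
  have hkd : k ≤ d := by omega
  refine ⟨1 / (8 * (v : ℝ)), 1 / (8 * (v : ℝ) * M), by positivity, ?_, by positivity,
    fun C3 hC3 => ⟨C3 + 1 + 6 ^ d, by positivity, ?_⟩⟩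
  · rw [div_le_one (by positivity)]
    linarith
  intro N L w f hN hNL hLM hwd hf hfC
  have hN0 : 0 < N := by linarith
  have hL1 : (1 : ℝ) ≤ L := (Real.one_le_rpow hN (by positivity)).trans hNL
  have hL0 : (0 : ℝ) < L := by linarith
  obtain ⟨A, hA⟩ : ∃ A, A = Real.log N := ⟨_, rfl⟩
  obtain ⟨B, hB⟩ : ∃ B, B = Real.log L := ⟨_, rfl⟩
  have hNA : N = Real.exp A := by rw [hA, Real.exp_log hN0]
  have hLB : (L : ℝ) = Real.exp B := by rw [hB, Real.exp_log hL0]
  have hA0 : 0 ≤ A := by rw [hA]; exact Real.log_nonneg hN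
  have hAB : (1 + 1 / (2 * (k : ℝ))) * A ≤ B := by
    have h1 := Real.log_le_log (Real.rpow_pos_of_pos hN0 _) hNL
    rw [Real.log_rpow hN0] at h1
    rw [hA, hB]
    exact h1
  have hBM : B ≤ M * A := by
    have h1 := Real.log_le_log hL0 hLM
    rw [Real.log_pow] at h1
    rw [hA, hB]
    exact h1
  have hB0 : 0 ≤ B := by rw [hB]; exact Real.log_nonneg hL1
  obtain ⟨E, hE⟩ : ∃ E : ℝ, E = if 4 * (v : ℝ) ≤ w then (d : ℝ) * (B - A) else
      if (w : ℝ) * B ≤ d * (B - A) then (w : ℝ) * B else d * (B - A) := ⟨_, rfl⟩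
  have hlin := rn_lin k d v M w A B E (1 / (8 * (v : ℝ))) (1 / (8 * (v : ℝ) * M))
    (by exact_mod_cast hk) hvR0 (by exact_mod_cast hkv) (by exact_mod_cast hd)
    (by exact_mod_cast hd2) hMR rfl rfl hA0 hAB hBM (Nat.cast_nonneg _) (by exact_mod_cast hwd) hE
  -- the minimum
  have hexp : 0 ≤ 1 - 1 / (v : ℝ) := by
    rw [sub_nonneg, div_le_one hvR0]
    exact hvR
  have hexp1 : 1 - 1 / (v : ℝ) ≤ 1 := by
    have : 0 < 1 / (v : ℝ) := by positivity
    linarith
  have hc : ∀ c x : ℝ, 0 ≤ c → (c * Real.exp x) ^ (1 - 1 / (v : ℝ)) ≤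
      (c + 1) * Real.exp ((1 - 1 / (v : ℝ)) * x) := by
    intro c x hc
    rw [Real.mul_rpow hc (Real.exp_pos _).le, ← Real.exp_mul, mul_comm x]
    apply mul_le_mul_of_nonneg_right _ (Real.exp_pos _).le
    calc c ^ (1 - 1 / (v : ℝ)) ≤ (c + 1) ^ (1 - 1 / (v : ℝ)) :=
          Real.rpow_le_rpow hc (by linarith) hexp
      _ ≤ (c + 1) ^ (1 : ℝ) := Real.rpow_le_rpow_of_exponent_le (by linarith) hexp1
      _ = c + 1 := Real.rpow_one _
  have hLN : ((L : ℝ) / N) ^ d = Real.exp (d * (B - A)) := by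
    rw [hLB, hNA, ← Real.exp_sub, ← Real.exp_nat_mul]
  have h6L : (6 * (L : ℝ)) ^ w = 6 ^ w * Real.exp (w * B) := by
    rw [mul_pow, hLB, ← Real.exp_nat_mul]
  have hmin0 : 0 ≤ min f ((6 * (L : ℝ)) ^ w) := le_min hf (by positivity)
  have hm1 : (min f ((6 * (L : ℝ)) ^ w)) ^ (1 - 1 / (v : ℝ)) ≤
      (C3 + 1 + 6 ^ d) * Real.exp ((1 - 1 / (v : ℝ)) * (d * (B - A))) := by
    have h1 : min f ((6 * (L : ℝ)) ^ w) ≤ C3 * Real.exp (d * (B - A)) := by
      rw [← hLN]
      exact (min_le_left _ _).trans hfC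
    refine (Real.rpow_le_rpow hmin0 h1 hexp).trans ((hc _ _ hC3.le).trans ?_)
    apply mul_le_mul_of_nonneg_right _ (Real.exp_pos _).le
    have : (0 : ℝ) ≤ 6 ^ d := by positivity
    linarith
  have hm2 : (min f ((6 * (L : ℝ)) ^ w)) ^ (1 - 1 / (v : ℝ)) ≤
      (C3 + 1 + 6 ^ d) * Real.exp ((1 - 1 / (v : ℝ)) * (w * B)) := by
    have h1 : min f ((6 * (L : ℝ)) ^ w) ≤ 6 ^ w * Real.exp (w * B) := by
      rw [← h6L]
      exact min_le_right _ _
    refine (Real.rpow_le_rpow hmin0 h1 hexp).trans ((hc _ _ (by positivity)).trans ?_)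
    apply mul_le_mul_of_nonneg_right _ (Real.exp_pos _).le
    have : (6 : ℝ) ^ w ≤ 6 ^ d := pow_le_pow_right₀ (by norm_num) hwd
    linarith
  have hm : (min f ((6 * (L : ℝ)) ^ w)) ^ (1 - 1 / (v : ℝ)) ≤
      (C3 + 1 + 6 ^ d) * Real.exp ((1 - 1 / (v : ℝ)) * E) := by
    rw [hE]
    split_ifs
    · exact hm1
    · exact hm2
    · exact hm1
  have hLp : (L : ℝ) ^ ((d : ℝ) + w / v - 2 * k * min 1 ((w : ℝ) / (4 * v)) +
      1 / (8 * (v : ℝ) * M)) = Real.exp (B * ((d : ℝ) + w / v -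
        2 * k * min 1 ((w : ℝ) / (4 * v)) + 1 / (8 * (v : ℝ) * M))) := by
    rw [hLB, ← Real.exp_mul]
  have hR : ((((L : ℝ) / N) ^ (d - k)) ^ 2) * N ^ ((d : ℝ) - 1 / (8 * (v : ℝ))) =
      Real.exp (2 * ((d : ℝ) - k) * (B - A) + ((d : ℝ) - 1 / (8 * (v : ℝ))) * A) := by
    rw [hLB, hNA, ← Real.exp_sub, ← Real.exp_nat_mul, ← Real.exp_nat_mul, ← Real.exp_mul,
      ← Real.exp_add, Nat.cast_sub hkd]
    congr 1
    push_cast
    ring
  rw [hLp, mul_assoc (C3 + 1 + 6 ^ d), hR]
  calc (min f ((6 * (L : ℝ)) ^ w)) ^ (1 - 1 / (v : ℝ)) * Real.exp (B * ((d : ℝ) + w / v -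
        2 * k * min 1 ((w : ℝ) / (4 * v)) + 1 / (8 * (v : ℝ) * M)))
      ≤ (C3 + 1 + 6 ^ d) * Real.exp ((1 - 1 / (v : ℝ)) * E) * Real.exp (B * ((d : ℝ) + w / v -
        2 * k * min 1 ((w : ℝ) / (4 * v)) + 1 / (8 * (v : ℝ) * M))) :=
        mul_le_mul_of_nonneg_right hm (Real.exp_pos _).le
    _ = (C3 + 1 + 6 ^ d) * Real.exp ((1 - 1 / (v : ℝ)) * E + B * ((d : ℝ) + w / v -
        2 * k * min 1 ((w : ℝ) / (4 * v)) + 1 / (8 * (v : ℝ) * M))) := by
        rw [mul_assoc, ← Real.exp_add]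
    _ ≤ _ := mul_le_mul_of_nonneg_left (Real.exp_le_exp.2 hlin) (by positivity)

end Pool.Agent.H85.KS2
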