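import Pool.Agent.H85.KS2.Defs

/-!
# MP_ff41bc_an: the endpoint bound for every `d ≥ min (2 ^ k) (2 k² - 2 k) + 5`, targets
paper proof: team-store `H85_KS2.md`
helper85
-/

set_option autoImplicit false

open scoped BigOperators

noncomputable section

namespace Pool.Agent.H85.KS2

open Pool.Agent.H98.KS

/-! ## I. mean values -/

/-- (V1) the majorant -/
def T_V1 : Prop := ∀ (k L : ℕ) (θ : ℝ) (h a b : ℤ), 1 ≤ L → -(8 * (L : ℤ)) ≤ a → b ≤ 8 * L + 1 →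
  ‖∑ u ∈ Finset.Ico a b, ee (θ * (dl k h u : ℝ))‖ ≤ VV k L θ h

/-- (V2) the sum of the weights -/
def T_WS2 : Prop := ∀ L : ℕ, 1 ≤ L → (∀ j ∈ Finset.range (16 * L + 1), 0 ≤ ww L j) ∧
  ∑ j ∈ Finset.range (16 * L + 1), ww L j ≤ LG L

/-- (V2) trivial bounds and continuity -/
def T_V2 : Prop := ∀ (k L : ℕ) (h : ℤ), 1 ≤ L →
  (∀ θ : ℝ, 0 ≤ VV k L θ h ∧ VV k L θ h ≤ LG L * (16 * L + 1)) ∧ Continuous fun θ => VV k L θ h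

/-- logarithms are small -/
def T_LG : Prop := ∀ (n : ℕ) (ε : ℝ), 0 < ε → ∃ C : ℝ, 0 < C ∧ ∀ L : ℕ, 1 ≤ L →
  LG L ^ n ≤ C * (L : ℝ) ^ ε

/-- (I.1) -/
def T_VM : Prop := ∀ (k s L : ℕ) (h h' : ℤ), 1 ≤ s → 1 ≤ L →
  ∫ θ in (0 : ℝ)..1, VV k L θ h ^ (2 * s) * VV k L θ h' ^ 2 ≤ LG L ^ (2 * s + 2) * NP k s L h h'

/-- (I.2) -/
def T_CTP : Prop := ∀ (k s L : ℕ) (h h' : ℤ), NP k s L h h' ≤ rr s (JJ L) (dl k h) * DD k L h h'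

/-- the divisor bound -/
def T_DB : Prop := ∀ ε : ℝ, 0 < ε → ∃ C : ℝ, 0 < C ∧ ∀ n : ℕ, 1 ≤ n →
  ((n.divisors.card : ℕ) : ℝ) ≤ C * (n : ℝ) ^ ε

/-- (I.3) -/
def T_DV : Prop := ∀ k : ℕ, 3 ≤ k → ∀ ε : ℝ, 0 < ε → ∃ C : ℝ, 0 < C ∧ ∀ L : ℕ, 1 ≤ L →
  ∑ h ∈ HH L, ∑ h' ∈ HH L, (DD k L h h' : ℝ) ≤ C * (L : ℝ) ^ (3 + ε)

/-- (I.4) for `v = s + 1` -/
def T_ZZ : Prop := ∀ k s : ℕ, 3 ≤ k → 1 ≤ s → MV k s → ZB k (s + 1)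

/-- (I.4) from `v` to `v + 1` -/
def T_ZU : Prop := ∀ k v w : ℕ, 1 ≤ v → v ≤ w → ZB k v → ZB k w

/-- (I.5) -/
def T_IZ : Prop := ∀ k v : ℕ, 1 ≤ v → ZB k v → ∀ z ε : ℝ, 0 ≤ z → 0 < ε → ∃ C : ℝ, 0 < C ∧
  ∀ L : ℕ, 1 ≤ L → ∫ θ in (0 : ℝ)..1, ZV k L v θ ^ z ≤
    C * (L : ℝ) ^ (((v : ℝ) + 1) * z - k * min 1 (z / 2) + ε)

/-- Weyl differencing -/
def T_WD : Prop := ∀ (N j : ℕ) (S : Finset ℤ) (f : ℤ → ℤ) (θ : ℝ), 1 ≤ j →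
  (∀ u ∈ S, ∀ w ∈ S, |u - w| < N) →
  ‖EE N 0 S f θ‖ ^ (2 ^ j) ≤ (2 * (N : ℝ)) ^ (2 ^ j - j - 1) * (EE N j S f θ).re

/-- the inequality of Hua's lemma -/
def T_HI : Prop := ∀ (N j K : ℕ) (S : Finset ℤ) (f : ℤ → ℤ), 1 ≤ j →
  (∀ u ∈ S, ∀ w ∈ S, |u - w| < N) → (∀ n : ℤ, n ≠ 0 → CN N j S f n ≤ K) →
  rr (2 ^ j) S f ≤
    (2 * N) ^ (2 ^ j - j - 1) * (CN N j S f 0 * rr (2 ^ (j - 1)) S f + S.card ^ (2 ^ j) * K)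

/-- the counts for a polynomial -/
def T_HC : Prop := ∀ (N j : ℕ) (S : Finset ℤ) (P : Polynomial ℤ), j + 1 ≤ P.natDegree →
  S.card ≤ N →
  CN N j S (fun u => P.eval u) 0 ≤ (P.natDegree + j) * (2 * N) ^ j ∧
  ∀ n : ℤ, n ≠ 0 → CN N j S (fun u => P.eval u) n ≤ P.natDegree * (2 * n.natAbs.divisors.card) ^ j

/-- the counts vanish for large `n` -/
def T_HB : Prop := ∀ (N j : ℕ) (S : Finset ℤ) (f : ℤ → ℤ) (B : ℤ), (∀ u ∈ S, |f u| ≤ B) →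
  ∀ n : ℤ, 2 ^ j * B < |n| → CN N j S f n = 0

/-- Hua's lemma for the differenced power -/
def T_HUA : Prop := ∀ k : ℕ, 3 ≤ k → MV k (2 ^ (k - 2))

/-- the mean value from Vinogradov's -/
def T_VIN : Prop := ∀ k : ℕ, 4 ≤ k → MV k (k * (k - 1) / 2)

/-- the mean value for the chosen number of variables -/
def T_MVK : Prop := ∀ k : ℕ, 3 ≤ k → MV k (ss k)

/-- the mean value for pairs of shifts -/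
def T_ZBK : Prop := ∀ k v : ℕ, 3 ≤ k → ss k + 1 ≤ v → ZB k v

/-! ## II. range B -/

/-- (II.1) -/
def T_RS : Prop := ∀ (k d : ℕ) (F X : Finset (Fin d → ℤ)) (T : ℝ), 0 ≤ T →
  (∀ x ∈ X, ∃ l : ℕ, T ≤ cnt k F x l) →
  T ^ 2 * X.card ≤ 4 ^ d * ∑ c : Fin d → Bool,
    (∫ θ in (0 : ℝ)..1, Real.sqrt (∑ x ∈ X, ‖GS k F c θ x‖ ^ 2)) ^ 2

/-- one coordinate in (II.2) -/
def T_RW1 : Prop := ∀ (k L : ℕ) (θ : ℝ) (b : Bool) (y y' : ℤ), 1 ≤ L →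
  -(2 * (L : ℤ)) ≤ y → y ≤ 3 * L → -(2 * (L : ℤ)) ≤ y' → y' ≤ 3 * L →
  ‖∑ x ∈ (Finset.Ico (0 : ℤ) L).filter (fun x => (y ≤ x ↔ b = true) ∧ (y' ≤ x ↔ b = true)),
    ee (θ * ((((x - y).natAbs ^ k : ℕ) : ℝ) - (((x - y').natAbs ^ k : ℕ) : ℝ)))‖
    ≤ UU k L θ (sg b * (y' - y))

/-- (II.2) -/
def T_RW : Prop := ∀ (k d L : ℕ) (F X : Finset (Fin d → ℤ)) (c : Fin d → Bool) (θ : ℝ), 1 ≤ L →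
  F ⊆ bx d (-(2 * (L : ℤ))) (3 * L) → X ⊆ cell d L →
  ∑ x ∈ X, ‖GS k F c θ x‖ ^ 2 ≤ ∑ y ∈ F, ∑ y' ∈ F, ∏ i, UU k L θ (sg (c i) * (y' i - y i))

/-- (II.3) -/
def T_RH : Prop := ∀ (d L v : ℕ) (U : ℤ → ℝ) (σ : Fin d → ℤ) (F : Finset (Fin d → ℤ)), 1 ≤ L →
  1 ≤ v → (∀ i, σ i = 1 ∨ σ i = -1) → (∀ h, 0 ≤ U h) → U 0 = L →
  F ⊆ bx d (-(2 * (L : ℤ))) (3 * L) →
  ∑ y ∈ F, ∑ y' ∈ F, ∏ i, U (σ i * (y' i - y i)) ≤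
    ∑ Z : Finset (Fin d), (L : ℝ) ^ Z.card * F.card *
      (min (F.card : ℝ) ((6 * (L : ℝ)) ^ (d - Z.card))) ^ (1 - 1 / (v : ℝ)) *
      (∑ h ∈ HH L, U h ^ v) ^ (((d - Z.card : ℕ) : ℝ) / v)

/-- (II.4) -/
def T_RC : Prop := ∀ k d v : ℕ, 1 ≤ v → ZB k v → ∀ ε : ℝ, 0 < ε → ∃ C : ℝ, 0 < C ∧
  ∀ (L : ℕ) (F X : Finset (Fin d → ℤ)) (T : ℝ), 1 ≤ L → 0 ≤ T →
  F ⊆ bx d (-(2 * (L : ℤ))) (3 * L) → X ⊆ cell d L → (∀ x ∈ X, ∃ l : ℕ, T ≤ cnt k F x l) →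
  T ^ 2 * X.card ≤ C * F.card * ∑ w ∈ Finset.range (d + 1),
    (min (F.card : ℝ) ((6 * (L : ℝ)) ^ w)) ^ (1 - 1 / (v : ℝ)) *
    (L : ℝ) ^ ((d : ℝ) + w / v - 2 * k * min 1 ((w : ℝ) / (4 * v)) + ε)

/-- (II.5) -/
def T_RN : Prop := ∀ k d v M : ℕ, 3 ≤ k → k ≤ 2 * v → 4 * v + 1 ≤ d → d + 1 ≤ 2 * k * v → 1 ≤ M →
  ∃ η ε : ℝ, 0 < η ∧ η ≤ 1 ∧ 0 < ε ∧ ∀ C3 : ℝ, 0 < C3 → ∃ C : ℝ, 0 < C ∧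
  ∀ (N : ℝ) (L w : ℕ) (f : ℝ), 1 ≤ N → N ^ (1 + 1 / (2 * (k : ℝ))) ≤ L → (L : ℝ) ≤ N ^ M →
  w ≤ d → 0 ≤ f → f ≤ C3 * (L / N) ^ d →
  (min f ((6 * (L : ℝ)) ^ w)) ^ (1 - 1 / (v : ℝ)) *
    (L : ℝ) ^ ((d : ℝ) + w / v - 2 * k * min 1 ((w : ℝ) / (4 * v)) + ε)
    ≤ C * ((L / N) ^ (d - k)) ^ 2 * N ^ ((d : ℝ) - η)

/-- one scale in range B -/
def T_RB2 : Prop := ∀ k d M : ℕ, 3 ≤ k → 4 * ss k + 5 ≤ d → 1 ≤ M → ∃ η : ℝ, 0 < η ∧ η ≤ 1 ∧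
  ∀ c0 : ℝ, 0 < c0 → ∃ C : ℝ, 0 < C ∧ ∀ (N : ℝ) (L : ℕ) (F X : Finset (Fin d → ℤ)), 1 ≤ N →
  N ^ (1 + 1 / (2 * (k : ℝ))) ≤ L → (L : ℝ) ≤ N ^ M →
  (∀ x ∈ X, Sparse N 1 F x ∧ Rich k N c0 F L x) →
  (X.card : ℝ) ≤ C * N ^ ((d : ℝ) - η) * F.card

/-- all scales up to `N^M` -/
def T_MID2 : Prop := ∀ k d M : ℕ, 3 ≤ k → 4 * ss k + 5 ≤ d → 1 ≤ M → ∀ c0 : ℝ, 0 < c0 →
  ∃ C : ℝ, 0 < C ∧ ∀ (N : ℝ) (F X : Finset (Fin d → ℤ)), 1 ≤ N →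
  (∀ x ∈ X, Sparse N 1 F x ∧ ∃ j : ℕ, (2 : ℝ) ^ j ≤ N ^ M ∧ Rich k N c0 F (2 ^ j) x) →
  (X.card : ℝ) ≤ C * N ^ d * F.card

/-! ## III. range C -/

/-- (III.1) -/
def T_SX : Prop := ∀ (k X : ℕ) (θ ξ : ℝ), 1 ≤ k → 1 ≤ X → ‖Ss k X θ ξ‖ ≤ PP k X θ

/-- (III.2) -/
def T_PI : Prop := ∀ k s : ℕ, k ≤ 2 * s + 2 → ZB k (s + 1) → ∀ ε : ℝ, 0 < ε → ∃ C : ℝ, 0 < C ∧
  ∀ X : ℕ, 1 ≤ X → ∫ θ in (0 : ℝ)..1, PP k X θ ^ (4 * s + 4) ≤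
    C * (X : ℝ) ^ (4 * (s : ℝ) + 4 - k + ε)

/-- (III.3) -/
def T_MA : Prop := ∀ k d : ℕ, 3 ≤ k → 4 * ss k + 5 ≤ d → ∃ δ C : ℝ, 0 < δ ∧ δ ≤ 1 ∧ 0 < C ∧
  ∀ X : ℕ, 1 ≤ X → ∃ g : ℝ → ℝ, Continuous g ∧ (∀ θ, 0 ≤ g θ) ∧
    (∀ θ ∈ MinS k X, ∀ ξ : ℝ, ‖Ss k X θ ξ‖ ^ d ≤ g θ) ∧
    ∫ θ in MinS k X, g θ ≤ C * (X : ℝ) ^ ((d : ℝ) - k - δ)

/-- the minor part in `l^2` -/
def T_MP2 : Prop := ∀ k d : ℕ, 3 ≤ k → 4 * ss k + 5 ≤ d → ∃ δ C : ℝ, 0 < δ ∧ δ ≤ 1 ∧ 0 < C ∧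
  ∀ (X : ℕ) (F S : Finset (Fin d → ℤ)), 1 ≤ X →
  ∑ x ∈ S, (∫ θ in MinS k X, ‖KF k F X θ x‖) ^ 2 ≤ C * (X : ℝ) ^ (2 * ((d : ℝ) - k - δ)) * F.card

/-- sum of the main estimates over the high arcs -/
def T_INT2 : Prop := ∀ k d : ℕ, 3 ≤ k → 2 * k + 1 ≤ d →
  (∀ q : ℕ, 1 ≤ q → MeasureTheory.Integrable (fun κ => BB k d q κ)) ∧
  ∃ C : ℝ, 0 < C ∧ ∀ (Y : ℝ) (Qm : ℕ), 1 ≤ Y →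
    ∑ q ∈ Finset.Icc 1 Qm, (q : ℝ) * ∫ κ in {κ : ℝ | ¬ low k Y q κ}, BB k d q κ
      ≤ C * Y ^ (2 - (d : ℝ) / k)

/-- the high part in `l^2` -/
def T_HP2 : Prop := ∀ k d : ℕ, 3 ≤ k → 2 * k + 1 ≤ d → ∃ C : ℝ, 0 < C ∧
  ∀ (Y : ℝ) (F S : Finset (Fin d → ℤ)) (j : (Fin d → ℤ) → ℕ), 1 ≤ Y →
  ∑ x ∈ S, (∑ q ∈ Finset.Icc 1 (Qx (2 ^ j x)), ∑ a ∈ res q,
      ∫ κ in {κ : ℝ | |κ| ≤ (((2 ^ j x : ℕ) : ℝ)) ^ ((1 : ℝ) / 20) ∧ ¬ low k Y q κ},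
        ‖KF k F (2 ^ j x) (th k (2 ^ j x) a q κ) x‖ / ((2 : ℝ) ^ j x) ^ d) ^ 2
    ≤ C * (Y ^ (2 - (d : ℝ) / k)) ^ 2 * F.card

/-- all large scales -/
def T_CC2 : Prop := ∀ k d : ℕ, 3 ≤ k → 4 * ss k + 5 ≤ d → ∃ M : ℕ, 1 ≤ M ∧ ∀ c0 : ℝ, 0 < c0 →
  ∃ c2 C : ℝ, 0 < c2 ∧ c2 ≤ 1 ∧ 0 < C ∧ ∀ (N : ℝ) (F X : Finset (Fin d → ℤ)), 1 ≤ N →
  (∀ x ∈ X, Sparse N c2 F x ∧ ∃ j : ℕ, N ^ M ≤ (2 : ℝ) ^ j ∧ Rich k N c0 F (2 ^ j) x) →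
  (X.card : ℝ) ≤ C * N ^ d * F.card

/-! ## V. local densities and the number of lattice points -/

/-- primes not dividing `k` -/
def T_L1a : Prop := ∀ k d p n l : ℕ, 1 ≤ k → p.Prime → ¬ p ∣ k → k + 1 ≤ d →
  p ^ (n * (d - 1)) ≤ p ^ (d - 1) * LS k d (p ^ n) l

/-- every class modulo `p`, `p` not dividing `k`, is a sum of `k` `k`-th powers -/
def T_CD : Prop := ∀ (k p : ℕ) (c : ℤ), 1 ≤ k → p.Prime → ¬ p ∣ k →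
  ∃ x : Fin k → ℤ, (p : ℤ) ∣ ∑ i, x i ^ k - c

/-- `k`-th roots of numbers near `1` modulo powers of primes dividing `k` -/
def T_SH2 : Prop := ∀ (k p v g : ℕ) (a : ℤ), 1 ≤ k → p.Prime → p ^ v ∣ k → ¬ p ^ (v + 1) ∣ k →
  (p ≠ 2 ∧ g = v + 1 ∨ p = 2 ∧ g = v + 2) → ((p : ℤ) ^ g) ∣ a - 1 →
  ∀ n : ℕ, ∃ x : ℤ, (p : ℤ) ∣ x - 1 ∧ ((p : ℤ) ^ n) ∣ x ^ k - a

/-- primes dividing `k` -/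
def T_L1b : Prop := ∀ k d p v g n l : ℕ, 1 ≤ k → p.Prime → p ^ v ∣ k → ¬ p ^ (v + 1) ∣ k →
  (p ≠ 2 ∧ g = v + 1 ∨ p = 2 ∧ g = v + 2) → p ^ g ≤ d →
  p ^ (n * (d - 1)) ≤ p ^ (g * (d - 1)) * LS k d (p ^ n) l

/-- local densities are bounded below -/
def T_L3b : Prop := ∀ k d : ℕ, 3 ≤ k → 4 * k ≤ d → k ^ 2 ≤ d → ∃ ρ : ℝ, 0 < ρ ∧
  ∀ W l : ℕ, 1 ≤ W → ρ * (W : ℝ) ^ (d - 1) ≤ LS k d W l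

/-- comparison of `NN` with its average -/
def T_L5b : Prop := ∀ k d : ℕ, 3 ≤ k → 4 * ss k + 5 ≤ d → ∃ δ C : ℝ, 0 < δ ∧ 0 < C ∧
  ∀ (X l W J Q1 : ℕ) (η K : ℝ), 1 ≤ X → 1 ≤ W → 1 ≤ Q1 → (∀ q : ℕ, 1 ≤ q → q ≤ Q1 → q ∣ W) → 1 ≤ K →
  0 < η → η ≤ 1 → J * W ≤ l → l + J * W ≤ X ^ k → ((J * W : ℕ) : ℝ) ≤ η * (X : ℝ) ^ k →
  |(NN k d l : ℝ) - AvN k d l W J| ≤
    C * (X : ℝ) ^ (d - k) * (η * K + 1 / K + 1 / Q1 + (X : ℝ) ^ (-δ))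

/-- the lower bound -/
def T_NL2 : Prop := ∀ k d : ℕ, 3 ≤ k → 4 * ss k + 5 ≤ d → ∃ c0 : ℝ, 0 < c0 ∧ ∀ l : ℕ, 1 ≤ l →
  NN k d l ≠ 0 → c0 * (l : ℝ) ^ (((d : ℝ) - k) / k) ≤ NN k d l

/-- the core -/
def T_CORE2 : Prop := ∀ k d : ℕ, 3 ≤ k → 4 * ss k + 5 ≤ d → ∃ C : ℝ, CoreKD k d C

/-- the numerical facts -/
def T_NUM : Prop := ∀ k d : ℕ, 3 ≤ k → 4 * ss k + 5 ≤ d → k < d ∧ 1 ≤ ss k ∧ k ≤ 2 * ss k + 2 ∧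
  4 * k ≤ d ∧ 6 * (k - 1) ≤ d ∧ k ^ 2 ≤ d ∧ 2 * k + 1 ≤ d ∧ ss k + 1 ≤ (d - 1) / 4 ∧
  4 * ((d - 1) / 4) + 1 ≤ d ∧ d + 1 ≤ 2 * k * ((d - 1) / 4)

end Pool.Agent.H85.KS2
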