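import Pool.Agent.H85.KS2.Targets
import Pool.Agent.H33.KS.NI

/-! Row V2 of ks2_modules. -/

set_option autoImplicit false

open Pool.Agent.H98.KS Pool.Agent.H85.KS2
open Pool.Agent.H33.KS (ee_cont)

noncomputable section

namespace Pool.Agent.H85.KS2

theorem ee_norm (x : ℝ) : ‖ee x‖ = 1 := by
  unfold ee
  have h : (2 * (Real.pi : ℂ) * (x : ℂ) * Complex.I) = ((2 * Real.pi * x : ℝ) : ℂ) * Complex.I := by
    push_cast
    ring
  rw [h, Complex.norm_exp_ofReal_mul_I]

theorem ks2_V2 (hWS2 : T_WS2) : T_V2 := by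
  intro k L h hL
  obtain ⟨h0, h1⟩ := hWS2 L hL
  refine ⟨fun θ => ⟨?_, ?_⟩, ?_⟩
  · unfold VV
    exact Finset.sum_nonneg fun j hj => mul_nonneg (h0 j hj) (norm_nonneg _)
  · unfold VV
    have hA : ∀ η : ℝ, ‖AA k L θ h η‖ ≤ 16 * (L : ℝ) + 1 := by
      intro η
      unfold AA
      refine (norm_sum_le _ _).trans ?_
      rw [Finset.sum_congr rfl fun u _ => ee_norm _, Finset.sum_const, nsmul_eq_mul, mul_one]
      unfold JJ
      rw [Int.card_Icc]
      have e : (8 * (L : ℤ) + 1 - -(8 * (L : ℤ))).toNat = 16 * L + 1 := by omega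
      rw [e]
      push_cast
      exact le_rfl
    calc ∑ j ∈ Finset.range (16 * L + 1), ww L j * ‖AA k L θ h ((j : ℝ) / (16 * (L : ℝ) + 1))‖
        ≤ ∑ j ∈ Finset.range (16 * L + 1), ww L j * (16 * (L : ℝ) + 1) :=
          Finset.sum_le_sum fun j hj => mul_le_mul_of_nonneg_left (hA _) (h0 j hj)
      _ = (∑ j ∈ Finset.range (16 * L + 1), ww L j) * (16 * (L : ℝ) + 1) := by
          rw [Finset.sum_mul]
      _ ≤ LG L * (16 * (L : ℝ) + 1) := mul_le_mul_of_nonneg_right h1 (by positivity)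
  · unfold VV AA
    refine continuous_finsetSum _ fun j _ => continuous_const.mul (Continuous.norm ?_)
    refine continuous_finsetSum _ fun u _ => ee_cont.comp ?_
    exact (continuous_id.mul continuous_const).add continuous_const

end Pool.Agent.H85.KS2
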