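import Pool.Agent.H98.KS.Asm
import Pool.Agent.H85.KS2.Targets
import Pool.Agent.H33.KS2.V1
import Pool.Agent.H37.KS2.WS2
import Pool.Agent.H85.KS2.V2
import Pool.Agent.H48.KS2.LG
import Pool.Agent.H82.KS2.VM
import Pool.Agent.H74.KS2.CTP
import Pool.Agent.H85.KS2.NUM
import Pool.Agent.H40.KS2.DV
import Pool.Agent.H14.KS2.ZZ
import Pool.Agent.H81.KS2.ZU
import Pool.Agent.H26.KS2.IZ
import Pool.Agent.H73.KS2.WD
import Pool.Agent.H85.KS2.HI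
import Pool.Agent.H55.KS2.HC
import Pool.Agent.H68.KS2.HB
import Pool.Agent.H32.KS2.HUA
import Pool.Agent.H10.KS2.VIN
import Pool.Agent.H15.KS2.RS
import Pool.Agent.H15.KS2.RW1
import Pool.Agent.H15.KS2.RW
import Pool.Agent.H33.KS2.RH
import Pool.Agent.H32.KS2.RC
import Pool.Agent.H85.KS2.RN
import Pool.Agent.H69.KS2.RB2
import Pool.Agent.H68.KS2.MID2
import Pool.Agent.H48.KS2.SX
import Pool.Agent.H48.KS2.PI
import Pool.Agent.H70.KS2.MA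
import Pool.Agent.H81.KS2.MP2
import Pool.Agent.H64.KS2.INT2
import Pool.Agent.H14.KS2.HP2
import Pool.Agent.H98.KS2.CC2
import Pool.Agent.H96.KS2.CD
import Pool.Agent.H96.KS2.L1
import Pool.Agent.H73.KS2.SH2
import Pool.Agent.H12.KS2.L3b
import Pool.Agent.H54.KS2.L5b
import Pool.Agent.H70.KS2.NL2
import Pool.Agent.H98.KS2.CORE2

/-!
# MP_ff41bc_an: assembly of the explicit range of dimensions
paper proof: team-store `H85_KS2.md`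
helper85
-/

open scoped BigOperators ENNReal NNReal

noncomputable section

namespace Pool.Agent.H85.KS2

open Pool.Agent.H98.KS

theorem b_WS2 : T_WS2 := Pool.Agent.H37.KS2.ks2_WS2 
theorem b_V2 : T_V2 := Pool.Agent.H85.KS2.ks2_V2 b_WS2
theorem b_LG : T_LG := Pool.Agent.H48.KS2.ks2_LG 
theorem b_VM : T_VM := Pool.Agent.H82.KS2.ks2_VM b_WS2
theorem b_CTP : T_CTP := Pool.Agent.H74.KS2.CTP.ks2_CTP 
theorem b_DB : T_DB := Pool.Agent.H85.KS2.ks2_DB 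
theorem b_DV : T_DV := Pool.Agent.H40.KS2.ks2_DV b_DB
theorem b_ZZ : T_ZZ := Pool.Agent.H14.KS2.ks2_ZZ b_V2 b_LG b_VM b_CTP b_DV
theorem b_ZU : T_ZU := Pool.Agent.H81.KS2.ks2_ZU b_V2 b_LG
theorem b_IZ : T_IZ := Pool.Agent.H26.KS2.ks2_IZ b_V2 b_LG
theorem b_WD : T_WD := Pool.Agent.H73.KS2.ks2_WD 
theorem b_HI : T_HI := Pool.Agent.H85.KS2.ks2_HI b_WD
theorem b_HC : T_HC := Pool.Agent.H55.KS2.ks2_HC 
theorem b_HB : T_HB := Pool.Agent.H68.KS2.ks2_HB 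
theorem b_HUA : T_HUA := Pool.Agent.H32.KS2.ks2_HUA b_HI b_HC b_HB b_DB
theorem b_VIN : T_VIN := Pool.Agent.H10.KS2.ks2_VIN 
theorem b_MVK : T_MVK := Pool.Agent.H85.KS2.ks2_MVK b_HUA b_VIN
theorem b_RS : T_RS := Pool.Agent.H15.KS2.ks2_RS 
theorem b_RH : T_RH := Pool.Agent.H33.KS2.ks2_RH 
theorem b_RN : T_RN := Pool.Agent.H85.KS2.ks2_RN 
theorem b_PI : T_PI := Pool.Agent.H48.KS2.ks2_PI b_V2
theorem b_INT2 : T_INT2 := Pool.Agent.H64.KS2.ks2_INT2 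
theorem b_HP2 : T_HP2 := Pool.Agent.H14.KS2.ks2_HP2 a_ME a_GB b_INT2
theorem b_CD : T_CD := Pool.Agent.H96.KS2.ks2_CD 
theorem b_L1a : T_L1a := Pool.Agent.H96.KS2.ks2_L1a b_CD
theorem b_SH2 : T_SH2 := Pool.Agent.H73.KS2.ks2_SH2 
theorem b_L1b : T_L1b := Pool.Agent.H96.KS2.ks2_L1b b_SH2
theorem b_L3b : T_L3b := Pool.Agent.H12.KS2.ks2_L3b a_L2 a_LM a_G6 b_L1a b_L1b
theorem b_NUM : T_NUM := Pool.Agent.H85.KS2.ks2_NUM 
theorem b_V1 : T_V1 := Pool.Agent.H33.KS2.ks2_V1 b_WS2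
theorem b_ZBK : T_ZBK := Pool.Agent.H85.KS2.ks2_ZBK b_NUM b_MVK b_ZZ b_ZU
theorem b_RW1 : T_RW1 := Pool.Agent.H15.KS2.ks2_RW1 b_V1
theorem b_RW : T_RW := Pool.Agent.H15.KS2.ks2_RW b_RW1
theorem b_RC : T_RC := Pool.Agent.H32.KS2.ks2_RC b_V2 b_IZ b_RS b_RW b_RH
theorem b_RB2 : T_RB2 := Pool.Agent.H69.KS2.ks2_RB2 a_LOC b_NUM b_ZBK b_RC b_RN
theorem b_MID2 : T_MID2 := Pool.Agent.H68.KS2.ks2_MID2 a_RA a_RT b_NUM b_RB2
theorem b_SX : T_SX := Pool.Agent.H48.KS2.ks2_SX a_SH b_V1 b_V2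
theorem b_MA : T_MA := Pool.Agent.H70.KS2.ks2_MA a_WK a_MIN b_NUM b_V2 b_ZBK b_SX b_PI
theorem b_MP2 : T_MP2 := Pool.Agent.H81.KS2.ks2_MP2 a_PK a_SP a_KC b_MA
theorem b_CC2 : T_CC2 := Pool.Agent.H98.KS2.ks2_CC2 a_CV b_NUM b_MP2 b_HP2
theorem b_L5b : T_L5b := Pool.Agent.H54.KS2.ks2_L5b a_NI a_SB a_ARC a_GB b_NUM b_MA
theorem b_NL2 : T_NL2 := Pool.Agent.H70.KS2.ks2_NL2 a_L4 b_NUM b_L3b b_L5b
theorem b_CORE2 : T_CORE2 := Pool.Agent.H98.KS2.ks2_CORE2 a_HL b_NUM b_MID2 b_CC2 b_NL2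

theorem four_ss (k : ℕ) (hk : 3 ≤ k) : 4 * ss k = min (2 ^ k) (2 * k * (k - 1)) := by
  have h1 : 4 * 2 ^ (k - 2) = 2 ^ k := (two_pow_ge k hk).2.2.2
  have h2 : 2 * (k * (k - 1) / 2) = k * (k - 1) :=
    Nat.mul_div_cancel' (Nat.even_mul_pred_self k).two_dvd
  have h3 : 4 * (k * (k - 1) / 2) = 2 * k * (k - 1) := by
    rw [mul_assoc 2 k (k - 1)]
    omega
  unfold ss
  rcases le_total (2 ^ (k - 2)) (k * (k - 1) / 2) with h | h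
  · rw [min_eq_left h, min_eq_left (by omega)]
    exact h1
  · rw [min_eq_right h, min_eq_right (by omega)]
    exact h3

/-- the endpoint bound for every `d ≥ min (2 ^ k) (2 k² - 2 k) + 5` -/
theorem endpoint2 : ∀ k d : ℕ, 3 ≤ k → min (2 ^ k) (2 * k * (k - 1)) + 5 ≤ d → k < d ∧
    ∃ C : ℝ≥0, ∀ f : (Fin d → ℤ) → ℂ,
      weakNorm ((d : ℝ) / ((d : ℝ) - k)) (maxOp k d f)
        ≤ C * lorentzNorm ((d : ℝ) / ((d : ℝ) - k)) f := by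
  intro k d hk hd
  rw [← four_ss k hk] at hd
  obtain ⟨C, hC⟩ := b_CORE2 k d hk hd
  exact ⟨(b_NUM k d hk hd).1, a_Z1 k d C hk (b_NUM k d hk hd).1 hC⟩

end Pool.Agent.H85.KS2
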