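import Pool.Agent.H98.KS.Targets2
import Pool.Agent.H98.KS.Targets3
import Pool.Agent.H98.KS.Targets4
import Pool.Agent.H98.KS.Targets5

/-!
# MP_ff41bc_an: the endpoint bound for every `d ≥ min (2 ^ k) (2 k² - 2 k) + 5`, definitions
paper proof: team-store `H85_KS2.md`
helper85
-/

set_option autoImplicit false

open scoped BigOperators

noncomputable section

namespace Pool.Agent.H85.KS2

open Pool.Agent.H98.KS

/-- half the number of variables of the mean value of degree `k - 1` -/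
def ss (k : ℕ) : ℕ := min (2 ^ (k - 2)) (k * (k - 1) / 2)

/-- the differenced power -/
def dl (k : ℕ) (h u : ℤ) : ℤ := (u + h) ^ k - u ^ k

/-- the interval `[-8L, 8L]` -/
def JJ (L : ℕ) : Finset ℤ := Finset.Icc (-(8 * (L : ℤ))) (8 * L)

/-- the shifts `0 < |h| ≤ 8L` -/
def HH (L : ℕ) : Finset ℤ := (JJ L).erase 0

/-- the twisted sums -/
def AA (k L : ℕ) (θ : ℝ) (h : ℤ) (η : ℝ) : ℂ := ∑ u ∈ JJ L, ee (θ * (dl k h u : ℝ) + η * u)

/-- the weights of the completion -/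
def ww (L j : ℕ) : ℝ := if j = 0 then 1 else 1 / (j : ℝ) + 1 / (16 * (L : ℝ) + 1 - j)

/-- the sum of the weights is at most this -/
def LG (L : ℕ) : ℝ := 3 + 2 * Real.log (16 * (L : ℝ) + 1)

/-- a majorant for all sums of `ee (θ * dl k h u)` over intervals in `JJ L` -/
def VV (k L : ℕ) (θ : ℝ) (h : ℤ) : ℝ :=
  ∑ j ∈ Finset.range (16 * L + 1), ww L j * ‖AA k L θ h ((j : ℝ) / (16 * (L : ℝ) + 1))‖

/-- the sum of the powers of the majorants -/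
def ZV (k L v : ℕ) (θ : ℝ) : ℝ := ∑ h ∈ HH L, VV k L θ h ^ v

/-- number of solutions of `∑ f (x_i) = ∑ f (y_i)`, `x, y ∈ S ^ s` -/
def rr (s : ℕ) (S : Finset ℤ) (f : ℤ → ℤ) : ℕ :=
  (((Fintype.piFinset fun _ : Fin s => S) ×ˢ (Fintype.piFinset fun _ : Fin s => S)).filter
    fun p => ∑ i, f (p.1 i) = ∑ i, f (p.2 i)).card

/-- the mean value of degree `k - 1` with `2 s` variables -/
def MV (k s : ℕ) : Prop := ∀ ε : ℝ, 0 < ε → ∃ C : ℝ, 0 < C ∧ ∀ L : ℕ, 1 ≤ L → ∀ h ∈ HH L,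
  (rr s (JJ L) (dl k h) : ℝ) ≤ C * (L : ℝ) ^ (2 * (s : ℝ) - k + 1 + ε)

/-- number of solutions for a pair of shifts -/
def NP (k s L : ℕ) (h h' : ℤ) : ℕ :=
  ((((Fintype.piFinset fun _ : Fin s => JJ L) ×ˢ (Fintype.piFinset fun _ : Fin s => JJ L)) ×ˢ
    (JJ L ×ˢ JJ L)).filter fun p =>
    ∑ i, dl k h (p.1.1 i) + dl k h' p.2.1 = ∑ i, dl k h (p.1.2 i) + dl k h' p.2.2).card

/-- number of pairs with a divisibility -/
def DD (k L : ℕ) (h h' : ℤ) : ℕ :=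
  ((JJ L ×ˢ JJ L).filter fun p => h ∣ dl k h' p.1 - dl k h' p.2).card

/-- the mean value for pairs of shifts -/
def ZB (k v : ℕ) : Prop := ∀ ε : ℝ, 0 < ε → ∃ C : ℝ, 0 < C ∧ ∀ L : ℕ, 1 ≤ L →
  ∫ θ in (0 : ℝ)..1, ZV k L v θ ^ 2 ≤ C * (L : ℝ) ^ (2 * (v : ℝ) + 2 - k + ε)

/-! ### Weyl differencing -/

/-- iterated differenced sums -/
def EE (N : ℕ) : ℕ → Finset ℤ → (ℤ → ℤ) → ℝ → ℂ
  | 0, S, f, θ => ∑ u ∈ S, ee (θ * (f u : ℝ))
  | j + 1, S, f, θ => ∑ l ∈ Finset.Ioo (-(N : ℤ)) N,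
      EE N j (S.filter fun u => u + l ∈ S) (fun u => f (u + l) - f u) θ

/-- the corresponding counts -/
def CN (N : ℕ) : ℕ → Finset ℤ → (ℤ → ℤ) → ℤ → ℕ
  | 0, S, f, n => (S.filter fun u => f u = n).card
  | j + 1, S, f, n => ∑ l ∈ Finset.Ioo (-(N : ℤ)) N,
      CN N j (S.filter fun u => u + l ∈ S) (fun u => f (u + l) - f u) n

/-! ### range B -/

/-- the kernel sum over the points `y` with a given sign pattern of `x - y` -/
def GS (k : ℕ) {d : ℕ} (F : Finset (Fin d → ℤ)) (c : Fin d → Bool) (θ : ℝ) (x : Fin d → ℤ) : ℂ :=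
  ∑ y ∈ F.filter (fun y => ∀ i, y i ≤ x i ↔ c i = true), ee (θ * (pw k (x - y) : ℝ))

/-- the sign of a boolean -/
def sg (b : Bool) : ℤ := if b = true then 1 else -1

/-- the majorant with the trivial value at `h = 0` -/
def UU (k L : ℕ) (θ : ℝ) (h : ℤ) : ℝ := if h = 0 then (L : ℝ) else VV k L θ h

/-! ### range C -/

/-- a majorant for `Ss` -/
def PP (k X : ℕ) (θ : ℝ) : ℝ := 1 + 2 * Real.sqrt (X + ZV k X 1 θ)

end Pool.Agent.H85.KS2
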