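import Pool.Agent.H85.KS2.Targets
import Pool.Agent.H33.KS.NI

/-! Row HI of ks2_modules: the inequality of Hua's lemma. -/

set_option autoImplicit false

open Pool.Agent.H98.KS Pool.Agent.H85.KS2
open Pool.Agent.H33.KS (ee_add ee_zero ee_sum ee_cont ee_int)

noncomputable section

namespace Pool.Agent.H85.KS2

theorem ee_conj (x : ℝ) : (starRingEnd ℂ) (ee x) = ee (-x) := by
  unfold ee
  rw [← Complex.exp_conj]
  congr 1
  rw [map_mul, map_mul, map_mul, Complex.conj_I, Complex.conj_ofReal, Complex.conj_ofReal,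
    Complex.conj_ofNat]
  push_cast
  ring

theorem ree_int (n : ℤ) : ∫ θ in (0 : ℝ)..1, (ee (θ * n)).re = if n = 0 then 1 else 0 := by
  have hc : IntervalIntegrable (fun θ : ℝ => ee (θ * n)) MeasureTheory.volume 0 1 :=
    (ee_cont.comp (continuous_id.mul continuous_const)).intervalIntegrable _ _
  have h := Complex.reCLM.intervalIntegral_comp_comm hc
  have h2 : ∫ θ in (0 : ℝ)..1, (ee (θ * n)).re = (∫ θ in (0 : ℝ)..1, ee (θ * n)).re := h
  rw [h2, ee_int]
  split_ifs <;> simp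

theorem EE_cont (N j : ℕ) : ∀ (S : Finset ℤ) (f : ℤ → ℤ), Continuous fun θ => EE N j S f θ := by
  induction j with
  | zero =>
    intro S f
    unfold EE
    exact continuous_finsetSum _ fun u _ => ee_cont.comp (continuous_id.mul continuous_const)
  | succ j ih =>
    intro S f
    unfold EE
    exact continuous_finsetSum _ fun l _ => ih _ _

/-- the counts tested against a function -/
def SH (N : ℕ) : ℕ → Finset ℤ → (ℤ → ℤ) → (ℤ → ℝ) → ℝ
  | 0, S, f, G => ∑ u ∈ S, G (f u)
  | j + 1, S, f, G => ∑ l ∈ Finset.Ioo (-(N : ℤ)) N,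
      SH N j (S.filter fun u => u + l ∈ S) (fun u => f (u + l) - f u) G

theorem SH_int (N j : ℕ) (g : ℝ → ℝ) (hg : Continuous g) : ∀ (S : Finset ℤ) (f : ℤ → ℤ),
    ∫ θ in (0 : ℝ)..1, g θ * (EE N j S f θ).re =
      SH N j S f fun n => ∫ θ in (0 : ℝ)..1, g θ * (ee (θ * n)).re := by
  induction j with
  | zero =>
    intro S f
    unfold EE SH
    simp_rw [Complex.re_sum, Finset.mul_sum]
    rw [intervalIntegral.integral_finsetSum]
    intro u _
    refine Continuous.intervalIntegrable ?_ _ _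
    exact hg.mul (Complex.continuous_re.comp (ee_cont.comp (continuous_id.mul continuous_const)))
  | succ j ih =>
    intro S f
    unfold EE SH
    simp_rw [Complex.re_sum, Finset.mul_sum]
    rw [intervalIntegral.integral_finsetSum]
    · exact Finset.sum_congr rfl fun l _ => ih _ _
    · intro l _
      refine Continuous.intervalIntegrable ?_ _ _
      exact hg.mul (Complex.continuous_re.comp (EE_cont N j _ _))

theorem SH_eq (N j : ℕ) (G : ℤ → ℝ) (B : Finset ℤ) (hB : ∀ n, n ∉ B → G n = 0) :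
    ∀ (S : Finset ℤ) (f : ℤ → ℤ), SH N j S f G = ∑ n ∈ B, (CN N j S f n : ℝ) * G n := by
  induction j with
  | zero =>
    intro S f
    unfold SH CN
    have h1 : ∀ u ∈ S, G (f u) = ∑ n ∈ B, (if f u = n then G n else 0) := by
      intro u _
      rw [Finset.sum_ite_eq]
      split_ifs with h
      · rfl
      · exact hB _ h
    rw [Finset.sum_congr rfl h1, Finset.sum_comm]
    refine Finset.sum_congr rfl fun n _ => ?_
    rw [← Finset.sum_filter, Finset.sum_const, nsmul_eq_mul]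
  | succ j ih =>
    intro S f
    unfold SH CN
    rw [Finset.sum_congr rfl fun l _ => ih _ _, Finset.sum_comm]
    refine Finset.sum_congr rfl fun n _ => ?_
    push_cast
    rw [Finset.sum_mul]

/-- tuples -/
def tp (m : ℕ) (S : Finset ℤ) : Finset (Fin m → ℤ) := Fintype.piFinset fun _ => S

/-- the counts of the moments -/
def RR (m : ℕ) (S : Finset ℤ) (f : ℤ → ℤ) (n : ℤ) : ℕ :=
  ((tp m S ×ˢ tp m S).filter fun p => ∑ i, f (p.1 i) + n = ∑ i, f (p.2 i)).card

theorem pow_eq (m N : ℕ) (S : Finset ℤ) (f : ℤ → ℤ) (θ : ℝ) :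
    ((‖EE N 0 S f θ‖ ^ (2 * m) : ℝ) : ℂ) =
      ∑ p ∈ tp m S ×ˢ tp m S, ee (θ * ((∑ i, f (p.1 i) - ∑ i, f (p.2 i) : ℤ) : ℝ)) := by
  have h1 : ∀ s : ℕ, (EE N 0 S f θ) ^ s = ∑ x ∈ tp s S, ee (θ * ((∑ i, f (x i) : ℤ) : ℝ)) := by
    intro s
    have e1 : (EE N 0 S f θ) ^ s = ∏ _i : Fin s, EE N 0 S f θ := by
      rw [Finset.prod_const, Finset.card_univ, Fintype.card_fin]
    rw [e1]
    unfold EE tp
    rw [Finset.prod_univ_sum]
    refine Finset.sum_congr rfl fun x _ => ?_
    rw [← ee_sum]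
    congr 1
    push_cast
    rw [Finset.mul_sum]
  have h2 : ((‖EE N 0 S f θ‖ ^ (2 * m) : ℝ) : ℂ) =
      (EE N 0 S f θ) ^ m * (starRingEnd ℂ) ((EE N 0 S f θ) ^ m) := by
    rw [map_pow, ← mul_pow, Complex.mul_conj, Complex.normSq_eq_norm_sq, pow_mul]
    push_cast
    rfl
  rw [h2, h1 m, map_sum, Finset.sum_mul_sum, Finset.sum_product]
  refine Finset.sum_congr rfl fun x _ => Finset.sum_congr rfl fun y _ => ?_
  rw [ee_conj, ← ee_add]
  congr 1
  push_cast
  ring

theorem mom (m N : ℕ) (S : Finset ℤ) (f : ℤ → ℤ) (n : ℤ) :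
    ∫ θ in (0 : ℝ)..1, ‖EE N 0 S f θ‖ ^ (2 * m) * (ee (θ * n)).re = RR m S f n := by
  have h1 : ∀ θ : ℝ, ‖EE N 0 S f θ‖ ^ (2 * m) * (ee (θ * n)).re =
      ∑ p ∈ tp m S ×ˢ tp m S,
        (ee (θ * ((∑ i, f (p.1 i) + n - ∑ i, f (p.2 i) : ℤ) : ℝ))).re := by
    intro θ
    rw [← Complex.re_ofReal_mul, pow_eq, Finset.sum_mul, Complex.re_sum]
    refine Finset.sum_congr rfl fun p _ => ?_
    rw [← ee_add]
    congr 2
    push_cast
    ring
  simp_rw [h1]
  rw [intervalIntegral.integral_finsetSum]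
  · rw [Finset.sum_congr rfl fun p _ => ree_int _]
    rw [← Finset.sum_filter, Finset.sum_const, nsmul_eq_mul, mul_one]
    unfold RR
    congr 2
    refine Finset.filter_congr fun p _ => ?_
    rw [sub_eq_zero]
  · intro p _
    refine Continuous.intervalIntegrable ?_ _ _
    exact Complex.continuous_re.comp (ee_cont.comp (continuous_id.mul continuous_const))

theorem RR_zero (m : ℕ) (S : Finset ℤ) (f : ℤ → ℤ) : RR m S f 0 = rr m S f := by
  unfold RR rr tp
  simp only [add_zero]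

theorem ks2_HI (hWD : T_WD) : T_HI := by
  intro N j K S f hj hS hK
  obtain ⟨i, rfl⟩ : ∃ i, j = i + 1 := ⟨j - 1, by omega⟩
  rw [Nat.add_sub_cancel]
  set T : ℝ → ℝ := fun θ => ‖EE N 0 S f θ‖ with hT
  have hTc : Continuous T := (EE_cont N 0 S f).norm
  set m := 2 ^ i with hm
  have h2m : 2 ^ (i + 1) = 2 * m := by rw [hm, pow_succ]; ring
  set e := 2 ^ (i + 1) - (i + 1) - 1 with he
  have hz : ∀ θ : ℝ, (ee (θ * ((0 : ℤ) : ℝ))).re = 1 := by
    intro θ
    simp [ee_zero]
  -- left side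
  have h1 : (rr (2 ^ (i + 1)) S f : ℝ) = ∫ θ in (0 : ℝ)..1, T θ ^ (2 * m) * T θ ^ (2 * m) := by
    rw [← RR_zero, ← mom (2 ^ (i + 1)) N S f 0]
    refine intervalIntegral.integral_congr fun θ _ => ?_
    have e1 : ‖EE N 0 S f θ‖ ^ (2 * 2 ^ (i + 1)) * (ee (θ * ((0 : ℤ) : ℝ))).re =
        T θ ^ (2 * m) * T θ ^ (2 * m) := by
      rw [hz, mul_one, ← pow_add, h2m]
      congr 1
      ring
    exact e1
  have h2 : ∫ θ in (0 : ℝ)..1, T θ ^ (2 * m) * T θ ^ (2 * m) ≤
      ∫ θ in (0 : ℝ)..1, (2 * (N : ℝ)) ^ e * (T θ ^ (2 * m) * (EE N (i + 1) S f θ).re) := by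
    refine intervalIntegral.integral_mono_on zero_le_one ?_ ?_ ?_
    · exact ((hTc.pow _).mul (hTc.pow _)).intervalIntegrable _ _
    · exact (continuous_const.mul ((hTc.pow _).mul
        (Complex.continuous_re.comp (EE_cont N (i + 1) S f)))).intervalIntegrable _ _
    · intro θ _
      have h3 := hWD N (i + 1) S f θ (by omega) hS
      rw [← he, h2m] at h3
      have h4 : 0 ≤ T θ ^ (2 * m) := by positivity
      have h5 := mul_le_mul_of_nonneg_left h3 h4
      calc T θ ^ (2 * m) * T θ ^ (2 * m) ≤ _ := h5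
        _ = _ := by ring
  rw [intervalIntegral.integral_const_mul] at h2
  have h3 : ∫ θ in (0 : ℝ)..1, T θ ^ (2 * m) * (EE N (i + 1) S f θ).re =
      SH N (i + 1) S f fun n => (RR m S f n : ℝ) := by
    rw [SH_int N (i + 1) (fun θ => T θ ^ (2 * m)) (hTc.pow _) S f]
    congr 1
    funext n
    exact mom m N S f n
  -- the support
  set B : Finset ℤ := insert 0 ((tp m S ×ˢ tp m S).image fun p => ∑ i, f (p.2 i) - ∑ i, f (p.1 i))
    with hBdef
  have hB : ∀ n, n ∉ B → (fun n => (RR m S f n : ℝ)) n = 0 := by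
    intro n hn
    simp only [Nat.cast_eq_zero]
    unfold RR
    rw [Finset.card_eq_zero, Finset.filter_eq_empty_iff]
    intro p hp h
    apply hn
    rw [hBdef, Finset.mem_insert]
    right
    rw [Finset.mem_image]
    exact ⟨p, hp, by rw [← h]; ring⟩
  rw [SH_eq N (i + 1) _ B hB S f] at h3
  have h4 : ∑ n ∈ B, (RR m S f n : ℝ) ≤ (S.card : ℝ) ^ (2 * m) := by
    have h5 : ∑ n ∈ B, RR m S f n = (tp m S ×ˢ tp m S).card := by
      have h6 : ∀ p ∈ tp m S ×ˢ tp m S,
          (fun p : (Fin m → ℤ) × (Fin m → ℤ) => ∑ i, f (p.2 i) - ∑ i, f (p.1 i)) p ∈ B := by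
        intro p hp
        rw [hBdef, Finset.mem_insert]
        right
        exact Finset.mem_image_of_mem _ hp
      rw [Finset.card_eq_sum_card_fiberwise h6]
      refine Finset.sum_congr rfl fun n _ => ?_
      unfold RR
      congr 1
      refine Finset.filter_congr fun p _ => ?_
      constructor
      · intro h
        rw [← h]
        ring
      · intro h
        rw [← h]
        ring
    have h7 : (tp m S ×ˢ tp m S).card = S.card ^ (2 * m) := by
      rw [Finset.card_product]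
      unfold tp
      rw [Fintype.card_piFinset]
      simp only [Finset.prod_const, Finset.card_univ, Fintype.card_fin]
      rw [← pow_add]
      congr 1
      ring
    rw [← Nat.cast_sum, h5, h7]
    push_cast
    exact le_rfl
  have h5 : ∑ n ∈ B, (CN N (i + 1) S f n : ℝ) * (RR m S f n : ℝ) ≤
      CN N (i + 1) S f 0 * rr m S f + (S.card : ℝ) ^ (2 * m) * K := by
    have h0 : (0 : ℤ) ∈ B := Finset.mem_insert_self _ _
    rw [← Finset.add_sum_erase B _ h0, RR_zero]
    have h6 : ∑ n ∈ B.erase 0, (CN N (i + 1) S f n : ℝ) * (RR m S f n : ℝ) ≤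
        (S.card : ℝ) ^ (2 * m) * K := by
      calc ∑ n ∈ B.erase 0, (CN N (i + 1) S f n : ℝ) * (RR m S f n : ℝ)
          ≤ ∑ n ∈ B.erase 0, (K : ℝ) * (RR m S f n : ℝ) := by
            refine Finset.sum_le_sum fun n hn => ?_
            have := hK n (Finset.ne_of_mem_erase hn)
            have h8 : (CN N (i + 1) S f n : ℝ) ≤ K := by exact_mod_cast this
            exact mul_le_mul_of_nonneg_right h8 (Nat.cast_nonneg _)
        _ ≤ ∑ n ∈ B, (K : ℝ) * (RR m S f n : ℝ) :=
            Finset.sum_le_sum_of_subset_of_nonneg (Finset.erase_subset _ _)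
              fun _ _ _ => by positivity
        _ = K * ∑ n ∈ B, (RR m S f n : ℝ) := by rw [Finset.mul_sum]
        _ ≤ K * (S.card : ℝ) ^ (2 * m) := mul_le_mul_of_nonneg_left h4 (Nat.cast_nonneg _)
        _ = _ := by ring
    linarith
  have hfin : (rr (2 ^ (i + 1)) S f : ℝ) ≤
      (2 * (N : ℝ)) ^ e * (CN N (i + 1) S f 0 * rr m S f + (S.card : ℝ) ^ (2 * m) * K) := by
    rw [h1]
    refine h2.trans ?_
    rw [h3]
    exact mul_le_mul_of_nonneg_left h5 (by positivity)
  rw [h2m] at hfin ⊢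
  exact_mod_cast hfin

end Pool.Agent.H85.KS2
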